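import Pool.Agent.Work.MP_914893_an.Defs
import Pool.Agent.Work.MP_914893_an.Final

open Pool.Agent.Work.MP_914893_an

namespace Pool.Agent.Results.MP_914893_an.Duality

/-- A real Banach space has the DD2P if and only if its dual has the weak-star DD2P. -/
theorem result (X : Type*) [NormedAddCommGroup X] [NormedSpace ℝ X] [CompleteSpace X] :
    DD2P X ↔ WeakStarDD2P X :=
  dd2p_iff X

end Pool.Agent.Results.MP_914893_an.Duality
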