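import Pool.Agent.Work.MP_914893_an.Defs
import Pool.Agent.Work.MP_914893_an.Hedge.Defs
import Pool.Agent.Work.MP_914893_an.Hedge.Final

open Pool.Agent.Work.MP_914893_an

namespace Pool.Agent.Results.MP_914893_an.SliceDuality

/-- A real Banach space has the diametral local diameter two property (slices only) if and only if
its dual has the weak-star diametral diameter two property (all relatively weak-star open sets). -/
theorem result (X : Type*) [NormedAddCommGroup X] [NormedSpace ℝ X] [CompleteSpace X] :
    DLD2P X ↔ WeakStarDD2P X :=
  dld2p_iff X

end Pool.Agent.Results.MP_914893_an.SliceDuality
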